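import Pool.Agent.W2helper56.PK.Stm

/-!
# Project PK, piece A1
-/

set_option autoImplicit false

namespace Pool.Agent.W2helper92.PK

open Pool.Agent.W2helper56.PK Finset

theorem p_avg : P_avg := by
  classical
  intro T U St _ _ _ st C bad W hC hs
  have hcard : ∀ (P : T × U → Prop), Nat.card {p // P p} = (univ.filter P).card := by
    intro P
    rw [Nat.card_eq_fintype_card, Fintype.card_subtype]
  have hcardT : ∀ (P : T → Prop), Nat.card {p // P p} = (univ.filter P).card := by
    intro P
    rw [Nat.card_eq_fintype_card, Fintype.card_subtype]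
  have key : ∀ s, (∃ u, C s u) → ∃ u, C s u ∧
      (univ.filter fun t => st t = s ∧ bad t u).card ≤
        (univ.filter fun t => st t = s ∧ W t).card := by
    intro s hne
    by_contra hcon
    push Not at hcon
    have h1 := hs s
    have h2 : Nat.card {p : T × U // st p.1 = s ∧ C s p.2 ∧ bad p.1 p.2} =
        ∑ u ∈ univ.filter (fun u => C s u), (univ.filter fun t => st t = s ∧ bad t u).card := by
      rw [hcard, card_eq_sum_card_fiberwise (f := fun p : T × U => p.2)
        (t := univ.filter (fun u => C s u))]
      · refine sum_congr rfl fun u hu => ?_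
        have hu' := (mem_filter.1 hu).2
        refine card_bij (fun p _ => p.1) ?_ ?_ ?_
        · rintro ⟨t, u'⟩ hp
          simp only [mem_filter, mem_univ, true_and] at hp ⊢
          obtain ⟨⟨a, b, c⟩, rfl⟩ := hp
          exact ⟨a, c⟩
        · rintro ⟨t, u'⟩ hp ⟨t', u''⟩ hp' h
          simp only [mem_filter, mem_univ, true_and] at hp hp'
          rw [Prod.mk.injEq]
          exact ⟨h, hp.2.trans hp'.2.symm⟩
        · intro t ht
          simp only [mem_filter, mem_univ, true_and] at ht
          exact ⟨(t, u), by simp [ht, hu'], rfl⟩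
      · rintro ⟨t, u⟩ hp
        simp only [coe_filter, mem_univ, true_and, Set.mem_ofPred_eq] at hp ⊢
        exact hp.2.1
    have h3 : Nat.card {p : T × U // st p.1 = s ∧ C s p.2 ∧ W p.1} =
        ∑ u ∈ univ.filter (fun u => C s u), (univ.filter fun t => st t = s ∧ W t).card := by
      rw [hcard, card_eq_sum_card_fiberwise (f := fun p : T × U => p.2)
        (t := univ.filter (fun u => C s u))]
      · refine sum_congr rfl fun u hu => ?_
        have hu' := (mem_filter.1 hu).2
        refine card_bij (fun p _ => p.1) ?_ ?_ ?_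
        · rintro ⟨t, u'⟩ hp
          simp only [mem_filter, mem_univ, true_and] at hp ⊢
          obtain ⟨⟨a, b, c⟩, rfl⟩ := hp
          exact ⟨a, c⟩
        · rintro ⟨t, u'⟩ hp ⟨t', u''⟩ hp' h
          simp only [mem_filter, mem_univ, true_and] at hp hp'
          rw [Prod.mk.injEq]
          exact ⟨h, hp.2.trans hp'.2.symm⟩
        · intro t ht
          simp only [mem_filter, mem_univ, true_and] at ht
          exact ⟨(t, u), by simp [ht, hu'], rfl⟩
      · rintro ⟨t, u⟩ hp
        simp only [coe_filter, mem_univ, true_and, Set.mem_ofPred_eq] at hp ⊢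
        exact hp.2.1
    rw [h2, h3] at h1
    refine absurd h1 (not_le.2 (sum_lt_sum_of_nonempty ?_ ?_))
    · obtain ⟨u, hu⟩ := hne
      exact ⟨u, by simp [hu]⟩
    · intro u hu
      exact hcon u (mem_filter.1 hu).2
  let τ : St → U := fun s => if h : ∃ u, C s u then (key s h).choose else Classical.arbitrary U
  have hτ : ∀ s, (∃ u, C s u) → C s (τ s) ∧
      (univ.filter fun t => st t = s ∧ bad t (τ s)).card ≤
        (univ.filter fun t => st t = s ∧ W t).card := by
    intro s h
    have := (key s h).choose_spec
    simp only [τ, dif_pos h]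
    exact this
  refine ⟨τ, fun t => (hτ _ (hC t)).1, ?_⟩
  rw [hcardT, hcardT]
  rw [card_eq_sum_card_fiberwise (f := st) (t := univ.image st)
      (fun t _ => mem_coe.2 (mem_image_of_mem st (mem_univ t))),
    card_eq_sum_card_fiberwise (s := univ.filter fun t => W t) (f := st) (t := univ.image st)
      (fun t _ => mem_coe.2 (mem_image_of_mem st (mem_univ t)))]
  refine sum_le_sum fun s hs' => ?_
  obtain ⟨t, -, rfl⟩ := mem_image.1 hs'
  have h1 := (hτ _ (hC t)).2
  refine le_trans (card_le_card ?_) (h1.trans (card_le_card ?_))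
  · intro t' ht'
    simp only [mem_filter, mem_univ, true_and] at ht' ⊢
    obtain ⟨h2, h3⟩ := ht'
    rw [h3] at h2
    exact ⟨h3, h2⟩
  · intro t' ht'
    simp only [mem_filter, mem_univ, true_and] at ht' ⊢
    exact ⟨ht'.2, ht'.1⟩

end Pool.Agent.W2helper92.PK
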